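import Pool.Agent.H39.CTN.Main
import Pool.Agent.H64.JS.COM

/-!
# Conical limit points: the radius itself

`pntr`, `conr`, `conl`: `pntg`, `con`, `con_lim` of `H39/CTN` with `r' = r` (the components are compact).
-/

set_option autoImplicit false

open Filter Topology Set Polynomial

namespace Pool.Agent.H56.ZE

open Pool.Agent.H35.EX (chord chord_comm)
open Pool.Agent.H32.BT (IsCrit)
open Pool.Agent.H44.RR (chord_zero)
open Pool.Agent.H44.RC (ch_ball ch_tri ch_nhds JS)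
open Pool.Agent.H3.NC (Wk CT PR)
open Pool.Agent.H3.UP (gue kj_cl kj_it fat_fam)
open Pool.Agent.H64.JS (KJ kj_inv kj_sub it_mem cmp_cl)
open Pool.Agent.H39.CTN (pntg)

variable {f : OnePoint ℂ → OnePoint ℂ}

/-- a compact set in the open disc of radius `r` lies in a smaller disc -/
theorem smaller {C : Set (OnePoint ℂ)} (hC : IsCompact C) {y : OnePoint ℂ} {r : ℝ} (hr : ∀ z ∈ C, chord y z < r) :
    ∃ r' < r, C ⊆ {z | chord y z < r'} := by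
  have hU : ∀ z ∈ C, ∃ U ∈ 𝓝 z, ∃ s < r, ∀ w ∈ U, chord y w < s := by
    intro z hz
    have h1 := hr z hz
    refine ⟨{w | chord z w < (r - chord y z) / 4}, (ch_ball z _).mem_nhds ?_, (r + chord y z) / 2, by linarith,
      fun w hw => ?_⟩
    · show chord z z < (r - chord y z) / 4
      rw [chord_zero]
      linarith
    · have h2 := ch_tri y z w
      have h3 : chord z w < (r - chord y z) / 4 := hw
      linarith
  choose! U hUn s hs hUs using hU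
  obtain ⟨t, ht, hcov⟩ := hC.elim_nhds_subcover U hUn
  by_cases hte : t.Nonempty
  · refine ⟨t.sup' hte s, (Finset.sup'_lt_iff hte).2 fun z hz => hs z (ht z hz), fun w hw => ?_⟩
    obtain ⟨z, hzt, hz⟩ := mem_iUnion₂.1 (hcov hw)
    exact (hUs z (ht z hzt) w hz).trans_le (Finset.le_sup' s hzt)
  · refine ⟨r - 1, by linarith, fun w hw => ?_⟩
    obtain ⟨z, hzt, -⟩ := mem_iUnion₂.1 (hcov hw)
    exact absurd ⟨z, hzt⟩ hte

theorem pntr (hf : Continuous f) (hfin : {c | IsCrit f c}.Finite) {J : Set (OnePoint ℂ)} (hJc : IsClosed J)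
    (hJi : ∀ x ∈ J, f x ∈ J)
    (hfat : ∀ c, IsCrit f c → c ∉ J → ∃ (δ : ℝ) (N : ℕ), 0 < δ ∧ ∀ m, N ≤ m → ∀ y ∈ J, δ ≤ chord (f^[m] c) y)
    (hpr : ∀ c, IsCrit f c → c ∈ J → PR f c) {y : OnePoint ℂ} (hy : y ∈ KJ {c | IsCrit f c} J f) {r : ℝ}
    (hcy : ∀ z ∈ connectedComponentIn (KJ {c | IsCrit f c} J f) y, chord y z < r) (D : ℕ) :
    ∃ N : ℕ, ∃ U ∈ 𝓝 y, ∀ n, N ≤ n → ∀ x ∈ KJ {c | IsCrit f c} J f, f^[n] x ∈ U → D < (CT f x n r).ncard := by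
  obtain ⟨r', hr', h1⟩ := smaller (cmp_cl (kj_cl (f := f) J) y).isCompact hcy
  exact pntg hf hfin hJc hJi hfat hpr hy hr' h1 D

/-- the uniform statement -/
theorem conr (hf : Continuous f) (hfin : {c | IsCrit f c}.Finite) {J : Set (OnePoint ℂ)} (hJc : IsClosed J)
    (hJi : ∀ x ∈ J, f x ∈ J)
    (hfat : ∀ c, IsCrit f c → c ∉ J → ∃ (δ : ℝ) (N : ℕ), 0 < δ ∧ ∀ m, N ≤ m → ∀ y ∈ J, δ ≤ chord (f^[m] c) y)
    (hpr : ∀ c, IsCrit f c → c ∈ J → PR f c) {r δ : ℝ} (hδ : 0 < δ) (D : ℕ) :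
    ∃ N : ℕ, ∀ n, N ≤ n → ∀ x ∈ KJ {c | IsCrit f c} J f, (CT f x n r).ncard ≤ D →
      ∃ y ∈ KJ {c | IsCrit f c} J f, chord (f^[n] x) y < δ ∧
        ∃ z ∈ connectedComponentIn (KJ {c | IsCrit f c} J f) y, r ≤ chord y z := by
  have h1 : ∀ y ∈ KJ {c | IsCrit f c} J f, ∃ N : ℕ, ∃ U ∈ 𝓝 y, ∀ n, N ≤ n → ∀ x ∈ KJ {c | IsCrit f c} J f,
      f^[n] x ∈ U → (CT f x n r).ncard ≤ D → ∃ y ∈ KJ {c | IsCrit f c} J f, chord (f^[n] x) y < δ ∧
        ∃ z ∈ connectedComponentIn (KJ {c | IsCrit f c} J f) y, r ≤ chord y z := by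
    intro y hy
    by_cases hz : ∃ z ∈ connectedComponentIn (KJ {c | IsCrit f c} J f) y, r ≤ chord y z
    · refine ⟨0, {z | chord y z < δ}, (ch_ball y δ).mem_nhds ?_, fun n _ x _ hxU _ => ⟨y, hy, ?_, hz⟩⟩
      · show chord y y < δ
        rw [chord_zero]
        exact hδ
      · rw [chord_comm]
        exact hxU
    · push Not at hz
      obtain ⟨N, U, hU, hN⟩ := pntr hf hfin hJc hJi hfat hpr hy hz D
      exact ⟨N, U, hU, fun n hn x hx hxU hle => absurd hle (not_le.2 (hN n hn x hx hxU))⟩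
  choose! N U hU hN using h1
  obtain ⟨t, ht, hcov⟩ := (kj_cl (f := f) J).isCompact.elim_nhds_subcover U hU
  refine ⟨t.sup N, fun n hn x hx hle => ?_⟩
  obtain ⟨y, hyt, hy⟩ := mem_iUnion₂.1 (hcov (kj_it hf hx n))
  exact hN y (ht y hyt) n ((Finset.le_sup hyt).trans hn) x hx hy hle

/-- limit points -/
theorem conl (hf : Continuous f) (hfin : {c | IsCrit f c}.Finite) {J : Set (OnePoint ℂ)} (hJc : IsClosed J)
    (hJi : ∀ x ∈ J, f x ∈ J)
    (hfat : ∀ c, IsCrit f c → c ∉ J → ∃ (δ : ℝ) (N : ℕ), 0 < δ ∧ ∀ m, N ≤ m → ∀ y ∈ J, δ ≤ chord (f^[m] c) y)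
    (hpr : ∀ c, IsCrit f c → c ∈ J → PR f c) {r : ℝ} {D : ℕ} {x y : OnePoint ℂ}
    (hx : x ∈ KJ {c | IsCrit f c} J f)
    (hy : ∀ U ∈ 𝓝 y, ∀ N : ℕ, ∃ n, N ≤ n ∧ f^[n] x ∈ U ∧ (CT f x n r).ncard ≤ D) :
    ∃ z ∈ connectedComponentIn (KJ {c | IsCrit f c} J f) y, r ≤ chord y z := by
  have hyK : y ∈ KJ {c | IsCrit f c} J f := by
    rw [← (kj_cl (f := f) J).closure_eq, mem_closure_iff_nhds]
    intro U hU
    obtain ⟨n, -, hn, -⟩ := hy U hU 0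
    exact ⟨_, hn, kj_it hf hx n⟩
  by_contra hz
  push Not at hz
  obtain ⟨N, U, hU, hN⟩ := pntr hf hfin hJc hJi hfat hpr hyK hz D
  obtain ⟨n, hn, hnU, hle⟩ := hy U hU N
  exact absurd hle (not_le.2 (hN n hn x hx hnU))

end Pool.Agent.H56.ZE
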