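import Pool.Agent.H56.ZE.Ent
import Pool.Agent.H56.END.Ch
import Pool.Agent.H44.TH.EB
import Pool.Agent.H78.UX.FO

/-!
# Zero entropy on the post-critical set: the sphere

`ent_sph`: a closed set `K` of the sphere which is mapped into itself and which contains no point with a positive upper exponent: for
`s > 1`, `r > 0` and large `n` there are at most `s ^ n` points of `K` such that the orbit of length `n` of every point of `K` is
`r`-near the orbit of one of them.
-/

set_option autoImplicit false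

open Filter Topology Polynomial Metric Set

namespace Pool.Agent.H56.ZE

open Pool.Agent.H44.Fatou (rat rat_continuous rat_coe rat_coe_of_ne pt crit_coe)
open Pool.Agent.H32.BT Pool.Agent.H79.Eul Pool.Agent.H79.Par
open Pool.Agent.H35.EX Pool.Agent.H44.RR Pool.Agent.H56.HR Pool.Agent.H44.RC Pool.Agent.H47.RJ
open Pool.Agent.H47.NM Pool.Agent.H47.NN Pool.Agent.H44.ND Pool.Agent.H79.ES Pool.Agent.H44.RG
open Pool.Agent.H61.TT (gg)
open Pool.Agent.H66.IL (em)
open Pool.Agent.H66.UX (RQ rq_ex rq_gg rq_pole)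
open Pool.Agent.H78.UX (em_hom)
open Pool.Agent.H56.END (ch_up ch_lo)
open Pool.Agent.H44.TH (der_low it_diff it_L it_eq)
open Pool.Agent.H56.UE (PUE)

variable {d : ℕ}

theorem ent_sph {v : E d} (hd : 2 ≤ d) (hcop : IsCoprime (pol v.1) (pol v.2))
    (hdeg : max (pol v.1).natDegree (pol v.2).natDegree = d) {K : Set (OnePoint ℂ)} (hKc : IsClosed K) (hKn : K ≠ univ)
    (hKf : ∀ x ∈ K, Rf v x ∈ K) (hpue : ∀ x ∈ K, ¬ PUE (Rf v) x) {s r : ℝ} (hs : 1 < s) (hr : 0 < r) :
    ∀ᶠ n : ℕ in atTop, ∃ T ⊆ K, T.Finite ∧ (T.ncard : ℝ) ≤ s ^ n ∧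
      ∀ x ∈ K, ∃ y ∈ T, ∀ k < n, chord ((Rf v)^[k] x) ((Rf v)^[k] y) < r := by
  classical
  rcases eq_empty_or_nonempty K with hK0 | hK1
  · refine Eventually.of_forall fun n => ⟨∅, empty_subset _, finite_empty, ?_, fun x hx => ?_⟩
    · rw [ncard_empty]
      have : 0 < s ^ n := by positivity
      simpa using this.le
    · rw [hK0] at hx
      exact absurd hx (notMem_empty x)
  obtain ⟨q, hq⟩ : ∃ q : ℂ, (q : OnePoint ℂ) ∉ K := by
    have hne : Kᶜ.Nonempty := nonempty_compl.2 hKn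
    obtain ⟨y, hy, z, rfl⟩ := OnePoint.denseRange_coe.inter_open_nonempty _ hKc.isOpen_compl hne
    exact ⟨z, hy⟩
  obtain ⟨φ, M, hM, bil, hφ⟩ := em_hom hd q
  obtain ⟨ψ, A, B, hRQ⟩ := rq_ex hd hcop hdeg (N := 1) le_rfl q
  have hφe : ∀ w : ℂ, φ (em q w) = (w : OnePoint ℂ) := fun w => by rw [← hφ, φ.apply_symm_apply]
  obtain ⟨P, hP⟩ : ∃ P, P = {w : ℂ | em q w ∈ K} := ⟨_, rfl⟩
  have hsub : ψ '' K ⊆ range ((↑) : ℂ → OnePoint ℂ) := by
    rintro _ ⟨x, hx, rfl⟩
    have h1 : ψ x ≠ OnePoint.infty := by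
      intro h2
      rw [← hRQ.fq] at h2
      exact hq (ψ.injective h2 ▸ hx)
    exact OnePoint.ne_infty_iff_exists.1 h1
  have hK : ∀ x ∈ K, ∃ w ∈ P, em q w = x := by
    intro x hx
    obtain ⟨w, hw⟩ := hsub ⟨x, hx, rfl⟩
    have h1 : em q w = x := by
      apply ψ.injective
      rw [hRQ.fe]
      exact hw
    refine ⟨w, ?_, h1⟩
    rw [hP]
    show em q w ∈ K
    rw [h1]
    exact hx
  have heq : P = ((↑) : ℂ → OnePoint ℂ) ⁻¹' (ψ '' K) := by
    rw [hP]
    ext w
    constructor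
    · intro hw
      exact ⟨em q w, hw, hRQ.fe w⟩
    · rintro ⟨x, hx, hx2⟩
      have h2 : x = em q w := by
        apply ψ.injective
        rw [hRQ.fe]
        exact hx2
      show em q w ∈ K
      rw [← h2]
      exact hx
  have hPc : IsCompact P := by
    rw [heq]
    exact OnePoint.isOpenEmbedding_coe.isInducing.isCompact_preimage' (hKc.isCompact.image ψ.continuous) hsub
  have hPn : P.Nonempty := by
    obtain ⟨x, hx⟩ := hK1
    obtain ⟨w, hw, -⟩ := hK x hx
    exact ⟨w, hw⟩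
  have hmP : ∀ w : ℂ, w ∈ P ↔ em q w ∈ K := fun w => by rw [hP]; exact Iff.rfl
  have hB : ∀ w ∈ P, B.eval w ≠ 0 := by
    intro w hw h0
    have h1 := rq_pole hRQ h0
    rw [Function.iterate_one] at h1
    have h2 := hKf _ ((hmP w).1 hw)
    rw [h1] at h2
    exact hq h2
  have hPg : ∀ w ∈ P, gg A B w ∈ P := by
    intro w hw
    have h1 := rq_gg hRQ (hB w hw)
    rw [Function.iterate_one] at h1
    rw [hmP, ← h1]
    exact hKf _ ((hmP w).1 hw)
  obtain ⟨U, hU⟩ : ∃ U, U = {w : ℂ | B.eval w ≠ 0} := ⟨_, rfl⟩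
  have hUo : IsOpen U := by
    rw [hU]
    exact isOpen_ne_fun B.continuous continuous_const
  have hPU : P ⊆ U := fun w hw => by rw [hU]; exact hB w hw
  have hg : DifferentiableOn ℂ (gg A B) U := by
    intro w hw
    rw [hU] at hw
    exact (A.differentiable.differentiableAt.div B.differentiable.differentiableAt hw).differentiableWithinAt
  have hcj : ∀ w ∈ U, (Rf v)^[1] (em q w) = em q (gg A B w) := fun w hw => rq_gg hRQ (by rw [hU] at hw; exact hw)
  have hec : ∀ z : ℂ, map (em q) (𝓝 z) = 𝓝 (em q z) := by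
    intro z
    have h1 : em q = fun w : ℂ => φ.symm (w : OnePoint ℂ) := funext fun w => (hφ w).symm
    rw [h1]
    show map (φ.symm ∘ ((↑) : ℂ → OnePoint ℂ)) (𝓝 z) = 𝓝 (φ.symm (z : OnePoint ℂ))
    rw [← Filter.map_map, OnePoint.isOpenEmbedding_coe.map_nhds_eq]
    exact φ.symm.map_nhds_eq _
  obtain ⟨R0, hR0⟩ := hPc.isBounded.exists_norm_le
  obtain ⟨R, hR⟩ : ∃ R, R = max R0 0 + 1 := ⟨_, rfl⟩
  have hR1 : 0 < R := by
    rw [hR]
    have := le_max_right R0 0
    linarith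
  have hRP : ∀ x ∈ P, ‖x‖ < R := fun x hx => by
    have h1 := hR0 x hx
    have h2 := le_max_left R0 0
    rw [hR]
    linarith
  have hup : ∀ z w : ℂ, chord (em q z) (em q w) ≤ M * ‖z - w‖ := by
    intro z w
    have h1 := (bil (em q z) (em q w)).2
    rw [hφe, hφe] at h1
    exact h1.trans (mul_le_mul_of_nonneg_left (ch_up z w) hM.le)
  have hlo : ∀ z w : ℂ, ‖z‖ ≤ R → ‖w‖ ≤ R → ‖z - w‖ ≤ (1 + R ^ 2) * (M * chord (em q z) (em q w)) := by
    intro z w hz hw
    have h1 := (bil (em q z) (em q w)).1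
    rw [hφe, hφe] at h1
    exact (ch_lo hz hw).trans (mul_le_mul_of_nonneg_left h1 (by positivity))
  -- the iterates
  have hit : ∀ n : ℕ, ∀ w ∈ P, (Rf v)^[n] (em q w) = em q ((gg A B)^[n] w) := by
    intro n w hw
    have h1 := (it_eq hUo hg hPU hPg hcj n hw).self_of_nhds
    rw [Nat.one_mul] at h1
    exact h1
  -- no exponential growth
  have hgr : ∀ x ∈ P, ∀ t : ℝ, 1 < t → ∃ n : ℕ, dp (gg A B) (fun w => ‖deriv (gg A B) w‖) n x < t ^ n := by
    intro x hx t ht
    by_contra hn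
    push Not at hn
    refine hpue (em q x) ((hmP x).1 hx) ?_
    have ht0 : 0 < t := by linarith
    have hst1 : 1 < √t := by
      rw [Real.lt_sqrt (by norm_num)]
      linarith
    have hst0 : 0 < √t := by linarith
    refine ⟨√t, hst1, Eventually.frequently ?_⟩
    have hgrow : Tendsto (fun n : ℕ => √t ^ n) atTop atTop := tendsto_pow_atTop_atTop_of_one_lt hst1
    filter_upwards [hgrow.eventually_ge_atTop (M * (2 * ((1 + R ^ 2) * M)))] with n hnn
    have h1 : t ^ n ≤ ‖deriv (gg A B)^[n] x‖ := by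
      rw [← dp_norm hUo hg n fun j _ => hPU (it_mem' hPg j x hx)]
      exact hn n
    have h0 : 0 < ‖deriv (gg A B)^[n] x‖ := lt_of_lt_of_le (by positivity) h1
    have hdx := it_diff hUo hg hPU hPg n x hx
    have hxn := it_mem' hPg n x hx
    rw [← hec x, eventually_map]
    have e1 := it_eq hUo hg hPU hPg hcj n hx
    have e2 : ∀ᶠ w in 𝓝 x, ‖(gg A B)^[n] w‖ < R :=
      hdx.continuousAt.norm.eventually_lt_const (hRP _ hxn)
    filter_upwards [e1, der_low hdx h0, e2] with w h2 h3 h4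
    rw [Nat.one_mul] at h2
    rw [h2, hit n x hx]
    have h5 := hlo ((gg A B)^[n] x) ((gg A B)^[n] w) (hRP _ hxn).le h4.le
    have h6 := hup x w
    have h7 : t ^ n / 2 * ‖x - w‖ ≤ ‖(gg A B)^[n] x - (gg A B)^[n] w‖ := by
      rw [norm_sub_rev x w, norm_sub_rev ((gg A B)^[n] x)]
      refine le_trans ?_ h3
      exact mul_le_mul_of_nonneg_right (by linarith) (norm_nonneg _)
    have h8 : t ^ n = √t ^ n * √t ^ n := by
      rw [← mul_pow, Real.mul_self_sqrt ht0.le]
    have hA : 0 < 2 * ((1 + R ^ 2) * M) := by positivity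
    have hpn : 0 < √t ^ n := by positivity
    have h9 : √t ^ n * √t ^ n * ‖x - w‖ ≤ 2 * ((1 + R ^ 2) * M) * chord (em q ((gg A B)^[n] x)) (em q ((gg A B)^[n] w)) := by
      rw [← h8]
      linarith
    have h10 : √t ^ n * chord (em q x) (em q w) * (2 * ((1 + R ^ 2) * M)) ≤
        chord (em q ((gg A B)^[n] x)) (em q ((gg A B)^[n] w)) * (2 * ((1 + R ^ 2) * M)) := by
      calc √t ^ n * chord (em q x) (em q w) * (2 * ((1 + R ^ 2) * M))
          ≤ √t ^ n * (M * ‖x - w‖) * (2 * ((1 + R ^ 2) * M)) :=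
            mul_le_mul_of_nonneg_right (mul_le_mul_of_nonneg_left h6 hpn.le) hA.le
        _ = M * (2 * ((1 + R ^ 2) * M)) * (√t ^ n * ‖x - w‖) := by ring
        _ ≤ √t ^ n * (√t ^ n * ‖x - w‖) := mul_le_mul_of_nonneg_right hnn (by positivity)
        _ = √t ^ n * √t ^ n * ‖x - w‖ := by ring
        _ ≤ _ := h9
        _ = _ := by ring
    exact le_of_mul_le_mul_right h10 hA
  filter_upwards [ent hUo hg hPc hPn hPU hPg hgr hs (div_pos hr hM)] with n hn
  obtain ⟨T, hTP, hTf, hTc, hT⟩ := hn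
  refine ⟨em q '' T, ?_, hTf.image _, ?_, fun x hx => ?_⟩
  · rintro _ ⟨w, hw, rfl⟩
    exact (hmP w).1 (hTP hw)
  · refine le_trans ?_ hTc
    exact_mod_cast ncard_image_le hTf
  · obtain ⟨w, hw, rfl⟩ := hK x hx
    obtain ⟨y, hy, hyw⟩ := hT w hw
    refine ⟨em q y, mem_image_of_mem _ hy, fun k hk => ?_⟩
    rw [hit k w hw, hit k y (hTP hy)]
    refine lt_of_le_of_lt (hup _ _) ?_
    have h1 := hyw k hk
    rw [lt_div_iff₀ hM] at h1
    linarith

end Pool.Agent.H56.ZE
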