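import Pool.Agent.H56.ZE.Pli

/-!
# Zero entropy on the post-critical set: the covering argument in the plane (Mathlib only)

`cov`: covering numbers of bounded sets in the plane. `ent`: if the products of the derivatives along the orbits in `P` do not grow
exponentially then for `q > 1`, `r > 0` and large `n` there are at most `q ^ n` points of `P` such that the orbit of length `n` of
every point of `P` is `r`-near the orbit of one of them.
-/

set_option autoImplicit false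

open Filter Topology Metric Set

namespace Pool.Agent.H56.ZE

theorem cov {P : Set ℂ} {R : ℝ} (hR0 : 0 < R) (hR : ∀ x ∈ P, ‖x‖ ≤ R) {ρ : ℝ} (hρ : 0 < ρ) (hρ1 : ρ ≤ 1) :
    ∃ T ⊆ P, T.Finite ∧ (T.ncard : ℝ) ≤ ((4 * R + 3) / ρ) ^ 2 ∧ ∀ x ∈ P, ∃ y ∈ T, ‖x - y‖ < ρ := by
  classical
  obtain ⟨c, hc⟩ : ∃ c : ℂ → ℤ × ℤ, c = fun x => (⌊x.re / (ρ / 2)⌋, ⌊x.im / (ρ / 2)⌋) := ⟨_, rfl⟩
  obtain ⟨M, hM⟩ : ∃ M : ℤ, M = ⌈2 * R / ρ⌉ := ⟨_, rfl⟩
  have hM0 : 0 ≤ M := by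
    rw [hM]
    exact Int.ceil_nonneg (by positivity)
  have hMle : (M : ℝ) ≤ 2 * R / ρ + 1 := by
    rw [hM]
    exact (Int.ceil_lt_add_one _).le
  have hMge : 2 * R / ρ ≤ (M : ℝ) := by
    rw [hM]
    exact Int.le_ceil _
  have hb : ∀ t : ℝ, |t| ≤ R → ⌊t / (ρ / 2)⌋ ∈ Finset.Icc (-M) M := by
    intro t ht
    have h1 := abs_le.1 ht
    have h2 : t / (ρ / 2) = 2 * t / ρ := by field_simp
    rw [Finset.mem_Icc, h2]
    constructor
    · rw [Int.le_floor]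
      push_cast
      have h3 : -(2 * R / ρ) ≤ 2 * t / ρ := by
        rw [← neg_div]
        exact div_le_div_of_nonneg_right (by linarith) hρ.le
      linarith
    · have h3 : (⌊2 * t / ρ⌋ : ℝ) ≤ 2 * t / ρ := Int.floor_le _
      have h4 : 2 * t / ρ ≤ 2 * R / ρ := div_le_div_of_nonneg_right (by linarith) hρ.le
      have h5 : (⌊2 * t / ρ⌋ : ℝ) ≤ (M : ℝ) := by linarith
      exact_mod_cast h5
  have hsub : c '' P ⊆ ((Finset.Icc (-M) M ×ˢ Finset.Icc (-M) M : Finset (ℤ × ℤ)) : Set (ℤ × ℤ)) := by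
    rintro _ ⟨x, hx, rfl⟩
    rw [Finset.mem_coe, hc, Finset.mem_product]
    exact ⟨hb _ ((Complex.abs_re_le_norm x).trans (hR x hx)), hb _ ((Complex.abs_im_le_norm x).trans (hR x hx))⟩
  have hfin : (c '' P).Finite := (Finset.finite_toSet _).subset hsub
  have hch : ∀ p : ℤ × ℤ, ∃ x : ℂ, p ∈ c '' P → x ∈ P ∧ c x = p := by
    intro p
    by_cases hp : p ∈ c '' P
    · obtain ⟨x, hx, hxp⟩ := hp
      exact ⟨x, fun _ => ⟨hx, hxp⟩⟩
    · exact ⟨0, fun h => absurd h hp⟩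
  choose g hg using hch
  refine ⟨g '' (c '' P), ?_, hfin.image g, ?_, ?_⟩
  · rintro _ ⟨p, hp, rfl⟩
    exact (hg p hp).1
  · have h1 : (g '' (c '' P)).ncard ≤ (c '' P).ncard := ncard_image_le hfin
    have h2 : (c '' P).ncard ≤ (Finset.Icc (-M) M ×ˢ Finset.Icc (-M) M : Finset (ℤ × ℤ)).card := by
      rw [← ncard_coe_finset]
      exact ncard_le_ncard hsub (Finset.finite_toSet _)
    have h3 : ((Finset.Icc (-M) M ×ˢ Finset.Icc (-M) M : Finset (ℤ × ℤ)).card : ℝ) = (2 * (M : ℝ) + 1) ^ 2 := by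
      rw [Finset.card_product, Int.card_Icc]
      have h4 : ((M + 1 - -M).toNat : ℝ) = 2 * (M : ℝ) + 1 := by
        have h5 : (((M + 1 - -M).toNat : ℤ) : ℝ) = ((M + 1 - -M : ℤ) : ℝ) := by
          rw [Int.toNat_of_nonneg (by omega)]
        rw [← Int.cast_natCast, h5]
        push_cast
        ring
      push_cast
      rw [h4]
      ring
    have h6 : ((g '' (c '' P)).ncard : ℝ) ≤ (2 * (M : ℝ) + 1) ^ 2 := by
      rw [← h3]
      exact_mod_cast h1.trans h2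
    refine h6.trans (pow_le_pow_left₀ (by positivity) ?_ 2)
    rw [le_div_iff₀ hρ]
    have h7 : 2 * R / ρ * ρ = 2 * R := by field_simp
    nlinarith
  · intro x hx
    obtain ⟨h1, h2⟩ := hg (c x) (mem_image_of_mem c hx)
    refine ⟨g (c x), mem_image_of_mem g (mem_image_of_mem c hx), ?_⟩
    rw [hc] at h2
    have h3 := Prod.ext_iff.1 h2
    have h4 : ∀ s t : ℝ, ⌊s / (ρ / 2)⌋ = ⌊t / (ρ / 2)⌋ → |s - t| < ρ / 2 := by
      intro s t hst
      have h5 := Int.abs_sub_lt_one_of_floor_eq_floor hst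
      rw [← sub_div, abs_div, abs_of_pos (by positivity : 0 < ρ / 2), div_lt_one (by positivity)] at h5
      exact h5
    have h5 := h4 _ _ h3.1
    have h6 := h4 _ _ h3.2
    have h7 := Complex.norm_le_abs_re_add_abs_im (x - g (c x))
    rw [Complex.sub_re, Complex.sub_im] at h7
    rw [abs_sub_comm] at h5 h6
    rw [hc] at h7 ⊢
    linarith

variable {f : ℂ → ℂ} {U P : Set ℂ}

/-- the derivative of the iterate -/
theorem der_it (hU : IsOpen U) (hf : DifferentiableOn ℂ f U) {z : ℂ} (n : ℕ) (hz : ∀ j < n, f^[j] z ∈ U) :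
    HasDerivAt f^[n] (∏ i ∈ Finset.range n, deriv f (f^[i] z)) z := by
  induction n with
  | zero =>
    rw [Finset.range_zero, Finset.prod_empty]
    exact hasDerivAt_id z
  | succ n ih =>
    have h1 := ih fun j hj => hz j (by omega)
    have h2 : HasDerivAt f (deriv f (f^[n] z)) (f^[n] z) :=
      (hf.differentiableAt (hU.mem_nhds (hz n (by omega)))).hasDerivAt
    have h3 := h2.comp z h1
    rw [Finset.prod_range_succ, mul_comm, Function.iterate_succ']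
    exact h3

theorem dp_norm (hU : IsOpen U) (hf : DifferentiableOn ℂ f U) {z : ℂ} (n : ℕ) (hz : ∀ j < n, f^[j] z ∈ U) :
    dp f (fun w => ‖deriv f w‖) n z = ‖deriv f^[n] z‖ := by
  rw [(der_it hU hf n hz).deriv, norm_prod]
  rfl

/-- the points whose orbit of length `n` stays in `U` -/
theorem ou_open (hU : IsOpen U) (hf : DifferentiableOn ℂ f U) (n : ℕ) :
    IsOpen {z | ∀ j < n, f^[j] z ∈ U} ∧ ContinuousOn f^[n] {z | ∀ j < n, f^[j] z ∈ U} := by
  have hc : ContinuousOn f^[n] {z | ∀ j < n, f^[j] z ∈ U} := fun z hz =>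
    (der_it hU hf n hz).continuousAt.continuousWithinAt
  refine ⟨?_, hc⟩
  clear hc
  induction n with
  | zero =>
    have h1 : {z : ℂ | ∀ j < 0, f^[j] z ∈ U} = univ := by
      ext z
      simp
    rw [h1]
    exact isOpen_univ
  | succ n ih =>
    have h1 : {z : ℂ | ∀ j < n + 1, f^[j] z ∈ U} = {z | ∀ j < n, f^[j] z ∈ U} ∩ f^[n] ⁻¹' U := by
      ext z
      constructor
      · intro h
        exact ⟨fun j hj => h j (by omega), h n (by omega)⟩
      · rintro ⟨h2, h3⟩ j hj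
        rcases Nat.lt_succ_iff_lt_or_eq.1 hj with h4 | h4
        · exact h2 j h4
        · rw [h4]
          exact h3
    rw [h1]
    exact ContinuousOn.isOpen_inter_preimage (fun z hz => (der_it hU hf n hz).continuousAt.continuousWithinAt) ih hU

/-- uniform Lipschitz bounds near `P` -/
theorem lip (hU : IsOpen U) (hf : DifferentiableOn ℂ f U) (hP : IsCompact P) (hPU : P ⊆ U) (hPf : ∀ z ∈ P, f z ∈ P) {n : ℕ} {L : ℝ}
    (h : ∀ x ∈ P, dp f (fun w => ‖deriv f w‖) n x < L) :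
    ∃ δ : ℝ, 0 < δ ∧ ∀ x ∈ P, ∀ y : ℂ, ‖x - y‖ < δ → ‖f^[n] x - f^[n] y‖ ≤ L * ‖x - y‖ := by
  obtain ⟨hO, -⟩ := ou_open hU hf n
  obtain ⟨O, hOe⟩ : ∃ O, O = {z : ℂ | ∀ j < n, f^[j] z ∈ U} := ⟨_, rfl⟩
  rw [← hOe] at hO
  have hd : DifferentiableOn ℂ f^[n] O := fun z hz =>
    (der_it hU hf n (by rw [hOe] at hz; exact hz)).differentiableAt.differentiableWithinAt
  have hV : IsOpen (O ∩ (fun z => ‖deriv f^[n] z‖) ⁻¹' (Iio L)) :=
    ((hd.deriv hO).continuousOn.norm).isOpen_inter_preimage hO isOpen_Iio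
  have hPV : P ⊆ O ∩ (fun z => ‖deriv f^[n] z‖) ⁻¹' (Iio L) := by
    intro x hx
    have h1 : ∀ j < n, f^[j] x ∈ U := fun j _ => hPU (it_mem' hPf j x hx)
    refine ⟨by rw [hOe]; exact h1, ?_⟩
    show ‖deriv f^[n] x‖ < L
    rw [← dp_norm hU hf n h1]
    exact h x hx
  obtain ⟨δ, hδ, hδV⟩ := hP.exists_thickening_subset_open hV hPV
  refine ⟨δ, hδ, fun x hx y hxy => ?_⟩
  have hb : ball x δ ⊆ O ∩ (fun z => ‖deriv f^[n] z‖) ⁻¹' (Iio L) := (ball_subset_thickening hx δ).trans hδV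
  have h1 := (convex_ball x δ).norm_image_sub_le_of_norm_deriv_le (𝕜 := ℂ) (f := f^[n]) (C := L)
    (fun z hz => (hd z (hb hz).1).differentiableAt (hO.mem_nhds (hb hz).1)) (fun z hz => (hb hz).2.le)
    (show y ∈ ball x δ by
      rw [mem_ball, dist_comm, dist_eq_norm]
      exact hxy) (mem_ball_self hδ)
  exact h1

theorem ent (hU : IsOpen U) (hf : DifferentiableOn ℂ f U) (hP : IsCompact P) (hPn : P.Nonempty) (hPU : P ⊆ U) (hPf : ∀ z ∈ P, f z ∈ P)
    (h : ∀ x ∈ P, ∀ q : ℝ, 1 < q → ∃ n : ℕ, dp f (fun w => ‖deriv f w‖) n x < q ^ n) {q r : ℝ} (hq : 1 < q) (hr : 0 < r) :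
    ∀ᶠ n : ℕ in atTop, ∃ T ⊆ P, T.Finite ∧ (T.ncard : ℝ) ≤ q ^ n ∧ ∀ x ∈ P, ∃ y ∈ T, ∀ k < n, ‖f^[k] x - f^[k] y‖ < r := by
  -- the rate
  obtain ⟨s, hs1, hs2⟩ : ∃ s : ℝ, 1 < s ∧ s ^ 2 < q := by
    refine ⟨√((1 + q) / 2), ?_, ?_⟩
    · rw [Real.lt_sqrt (by norm_num)]
      linarith
    · rw [Real.sq_sqrt (by linarith)]
      linarith
  have hs0 : 0 < s := by linarith
  have hfc : ContinuousOn f P := hf.continuousOn.mono hPU
  have hac : ContinuousOn (fun w => ‖deriv f w‖) P := ((hf.deriv hU).continuousOn.mono hPU).norm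
  obtain ⟨n1, hn1, hdp⟩ := pli hP hPn hPf hfc hac (fun x _ => norm_nonneg _) h hs1
  obtain ⟨L0, hL0⟩ := (hP.image_of_continuousOn hac).bddAbove
  obtain ⟨L, hL⟩ : ∃ L, L = max (L0 + 1) 1 := ⟨_, rfl⟩
  have hL1 : 1 ≤ L := hL ▸ le_max_right _ _
  obtain ⟨δ1, hδ1, hlip1⟩ := lip hU hf hP hPU hPf (n := 1) (L := L) (by
    intro x hx
    unfold dp
    rw [Finset.prod_range_one]
    have h1 : ‖deriv f x‖ ≤ L0 := hL0 (mem_image_of_mem _ hx)
    have h2 : L0 + 1 ≤ L := hL ▸ le_max_left _ _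
    show ‖deriv f x‖ < L
    linarith)
  obtain ⟨δ2, hδ2, hlip2⟩ := lip hU hf hP hPU hPf (n := n1) (L := s ^ n1) hdp
  obtain ⟨δ, hδ⟩ : ∃ δ, δ = min (min δ1 δ2) r := ⟨_, rfl⟩
  have hδ0 : 0 < δ := hδ ▸ lt_min (lt_min hδ1 hδ2) hr
  have hδδ1 : δ ≤ δ1 := hδ ▸ (min_le_left _ _).trans (min_le_left _ _)
  have hδδ2 : δ ≤ δ2 := hδ ▸ (min_le_left _ _).trans (min_le_right _ _)
  have hδr : δ ≤ r := hδ ▸ min_le_right _ _
  have hLn : 1 ≤ L ^ n1 := one_le_pow₀ hL1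
  -- blocks
  have hB : ∀ x ∈ P, ∀ y ∈ P, ∀ j : ℕ, ‖x - y‖ * (L ^ n1 * s ^ (n1 * j)) < δ →
      ‖f^[n1 * j] x - f^[n1 * j] y‖ ≤ s ^ (n1 * j) * ‖x - y‖ := by
    intro x hx y hy j
    induction j with
    | zero =>
      intro _
      rw [Nat.mul_zero, pow_zero, one_mul]
      exact le_rfl
    | succ j ih =>
      intro hj
      have h0 : s ^ (n1 * j) ≤ s ^ (n1 * (j + 1)) := pow_le_pow_right₀ hs1.le (Nat.mul_le_mul_left _ (Nat.le_succ j))
      have h1 : ‖x - y‖ * (L ^ n1 * s ^ (n1 * j)) < δ := by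
        refine lt_of_le_of_lt ?_ hj
        exact mul_le_mul_of_nonneg_left (mul_le_mul_of_nonneg_left h0 (by positivity)) (norm_nonneg _)
      have h2 := ih h1
      have h3 : ‖f^[n1 * j] x - f^[n1 * j] y‖ < δ2 := by
        refine lt_of_le_of_lt h2 (lt_of_lt_of_le (lt_of_le_of_lt ?_ h1) hδδ2)
        have h4 : s ^ (n1 * j) ≤ L ^ n1 * s ^ (n1 * j) := le_mul_of_one_le_left (by positivity) hLn
        calc s ^ (n1 * j) * ‖x - y‖ = ‖x - y‖ * s ^ (n1 * j) := mul_comm _ _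
          _ ≤ _ := mul_le_mul_of_nonneg_left h4 (norm_nonneg _)
      have h5 := hlip2 _ (it_mem' hPf (n1 * j) x hx) _ h3
      have h6 : n1 * (j + 1) = n1 + n1 * j := by ring
      rw [h6, Function.iterate_add_apply, Function.iterate_add_apply]
      refine h5.trans ?_
      rw [pow_add, mul_assoc]
      exact mul_le_mul_of_nonneg_left h2 (by positivity)
  have hC : ∀ x ∈ P, ∀ y ∈ P, ∀ j : ℕ, ∀ i ≤ n1, ‖x - y‖ * (L ^ n1 * s ^ (n1 * j)) < δ →
      ‖f^[i + n1 * j] x - f^[i + n1 * j] y‖ ≤ L ^ i * (s ^ (n1 * j) * ‖x - y‖) := by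
    intro x hx y hy j i
    induction i with
    | zero =>
      intro _ hj
      rw [Nat.zero_add, pow_zero, one_mul]
      exact hB x hx y hy j hj
    | succ i ih =>
      intro hi hj
      have h2 := ih (by omega) hj
      have h4 : L ^ i ≤ L ^ n1 := pow_le_pow_right₀ hL1 (by omega)
      have h3 : ‖f^[i + n1 * j] x - f^[i + n1 * j] y‖ < δ1 := by
        refine lt_of_le_of_lt h2 (lt_of_lt_of_le (lt_of_le_of_lt ?_ hj) hδδ1)
        calc L ^ i * (s ^ (n1 * j) * ‖x - y‖) ≤ L ^ n1 * (s ^ (n1 * j) * ‖x - y‖) :=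
              mul_le_mul_of_nonneg_right h4 (by positivity)
          _ = _ := by ring
      have h5 := hlip1 _ (it_mem' hPf (i + n1 * j) x hx) _ h3
      rw [Function.iterate_one] at h5
      have h6 : i + 1 + n1 * j = (i + n1 * j) + 1 := by ring
      rw [h6, Function.iterate_succ_apply', Function.iterate_succ_apply']
      refine h5.trans ?_
      rw [pow_succ]
      calc L * ‖f^[i + n1 * j] x - f^[i + n1 * j] y‖ ≤ L * (L ^ i * (s ^ (n1 * j) * ‖x - y‖)) :=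
            mul_le_mul_of_nonneg_left h2 (by linarith)
        _ = _ := by ring
  -- orbits
  have hO : ∀ n : ℕ, ∀ x ∈ P, ∀ y ∈ P, ‖x - y‖ * (L ^ n1 * s ^ n) < δ → ∀ k < n, ‖f^[k] x - f^[k] y‖ < r := by
    intro n x hx y hy hxy k hk
    have h1 : k = k % n1 + n1 * (k / n1) := (Nat.mod_add_div k n1).symm
    have h2 : n1 * (k / n1) ≤ n := (Nat.mul_div_le k n1).trans hk.le
    have h3 : ‖x - y‖ * (L ^ n1 * s ^ (n1 * (k / n1))) < δ := by
      refine lt_of_le_of_lt ?_ hxy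
      exact mul_le_mul_of_nonneg_left (mul_le_mul_of_nonneg_left (pow_le_pow_right₀ hs1.le h2) (by positivity)) (norm_nonneg _)
    have h4 := hC x hx y hy (k / n1) (k % n1) (Nat.mod_lt k (by omega)).le h3
    rw [← h1] at h4
    refine lt_of_le_of_lt h4 (lt_of_lt_of_le (lt_of_le_of_lt ?_ h3) hδr)
    have h5 : L ^ (k % n1) ≤ L ^ n1 := pow_le_pow_right₀ hL1 (Nat.mod_lt k (by omega)).le
    calc L ^ (k % n1) * (s ^ (n1 * (k / n1)) * ‖x - y‖) ≤ L ^ n1 * (s ^ (n1 * (k / n1)) * ‖x - y‖) :=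
          mul_le_mul_of_nonneg_right h5 (by positivity)
      _ = _ := by ring
  -- the number of discs
  obtain ⟨R0, hR0⟩ := hP.isBounded.exists_norm_le
  obtain ⟨R, hR⟩ : ∃ R, R = max R0 1 := ⟨_, rfl⟩
  have hR1 : 0 < R := lt_of_lt_of_le one_pos (hR ▸ le_max_right _ _)
  have hRP : ∀ x ∈ P, ‖x‖ ≤ R := fun x hx => (hR0 x hx).trans (hR ▸ le_max_left _ _)
  obtain ⟨D, hD⟩ : ∃ D, D = min δ 1 / (2 * L ^ n1) := ⟨_, rfl⟩
  have hD0 : 0 < D := by
    rw [hD]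
    positivity
  have hD1 : D ≤ 1 := by
    rw [hD, div_le_one (by positivity)]
    have := min_le_right δ 1
    linarith
  have hgr : Tendsto (fun n : ℕ => (q / s ^ 2) ^ n) atTop atTop :=
    tendsto_pow_atTop_atTop_of_one_lt (by rwa [one_lt_div (by positivity)])
  filter_upwards [hgr.eventually_ge_atTop (((4 * R + 3) / D) ^ 2)] with n hn
  have hsn : 1 ≤ s ^ n := one_le_pow₀ hs1.le
  obtain ⟨T, hTP, hTf, hTc, hT⟩ := cov hR1 hRP (ρ := D / s ^ n) (by positivity) ((div_le_self hD0.le hsn).trans hD1)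
  refine ⟨T, hTP, hTf, ?_, fun x hx => ?_⟩
  · refine hTc.trans ?_
    have h1 : (4 * R + 3) / (D / s ^ n) = (4 * R + 3) / D * s ^ n := by field_simp
    rw [h1, mul_pow]
    rw [div_pow q, le_div_iff₀ (by positivity)] at hn
    calc ((4 * R + 3) / D) ^ 2 * (s ^ n) ^ 2 = ((4 * R + 3) / D) ^ 2 * (s ^ 2) ^ n := by ring
      _ ≤ q ^ n := hn
  · obtain ⟨y, hy, hxy⟩ := hT x hx
    refine ⟨y, hy, hO n x hx y (hTP hy) ?_⟩
    have h1 : ‖x - y‖ * (L ^ n1 * s ^ n) < D / s ^ n * (L ^ n1 * s ^ n) := mul_lt_mul_of_pos_right hxy (by positivity)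
    have h2 : D / s ^ n * (L ^ n1 * s ^ n) = min δ 1 / 2 := by
      rw [hD]
      field_simp
    rw [h2] at h1
    have h3 := min_le_left δ 1
    have h4 : 0 < min δ 1 := lt_min hδ0 one_pos
    linarith

end Pool.Agent.H56.ZE
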