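import Mathlib

/-!
# Zero entropy on the post-critical set: the Pliss argument (Mathlib only)

`dp f a n x`: the product of `a` along the orbit of `x` of length `n`. `pli`: `P` compact, `f P ⊆ P`, `a ≥ 0` continuous on `P`: if for
every `q > 1` and every `x ∈ P` not all products `dp n x` are at least `q ^ n`, then for every `q > 1` there is `n ≥ 1` with
`dp n x < q ^ n` for all `x ∈ P`.
-/

set_option autoImplicit false

open Filter Topology Metric Set

namespace Pool.Agent.H56.ZE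

variable {X : Type*}

/-- the product of `a` along the orbit of `x` -/
noncomputable def dp (f : X → X) (a : X → ℝ) (n : ℕ) (x : X) : ℝ := ∏ i ∈ Finset.range n, a (f^[i] x)

theorem dp_zero (f : X → X) (a : X → ℝ) (x : X) : dp f a 0 x = 1 := by
  unfold dp
  simp

theorem dp_succ (f : X → X) (a : X → ℝ) (n : ℕ) (x : X) : dp f a (n + 1) x = dp f a n x * a (f^[n] x) := by
  unfold dp
  rw [Finset.prod_range_succ]

theorem dp_add (f : X → X) (a : X → ℝ) (m n : ℕ) (x : X) : dp f a (m + n) x = dp f a m x * dp f a n (f^[m] x) := by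
  unfold dp
  rw [Finset.prod_range_add]
  congr 1
  refine Finset.prod_congr rfl fun i _ => ?_
  rw [← Function.iterate_add_apply, Nat.add_comm i m]

theorem it_mem' {P : Set X} {f : X → X} (hPf : ∀ x ∈ P, f x ∈ P) (n : ℕ) : ∀ x ∈ P, f^[n] x ∈ P := by
  induction n with
  | zero => exact fun x hx => hx
  | succ n ih =>
    intro x hx
    rw [Function.iterate_succ_apply']
    exact hPf _ (ih x hx)

/-- the index of the minimum -/
theorem pli_min {P : Set X} {f : X → X} {a : X → ℝ} (hPf : ∀ x ∈ P, f x ∈ P) (ha : ∀ x ∈ P, 0 ≤ a x) {B q r : ℝ} (hB : ∀ x ∈ P, a x ≤ B)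
    (hr : 1 < r) (hrq : r < q) (hqB : q ≤ B) {n : ℕ} {x : X} (hx : x ∈ P) (hn : q ^ n ≤ dp f a n x) :
    ∃ i ≤ n, (∀ j ≤ n - i, r ^ j ≤ dp f a j (f^[i] x)) ∧ (q / r) ^ n ≤ B ^ (n - i) := by
  have hr0 : 0 < r := by linarith
  have hq0 : 0 < q := by linarith
  have hB0 : 0 < B := by linarith
  have hdn : 0 < dp f a n x := lt_of_lt_of_le (by positivity) hn
  have hpos : ∀ i ≤ n, 0 < dp f a i x := by
    intro i hi
    obtain ⟨j, rfl⟩ : ∃ j, n = i + j := ⟨n - i, by omega⟩
    rw [dp_add] at hdn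
    have h1 : 0 ≤ dp f a i x := Finset.prod_nonneg fun k _ => ha _ (it_mem' hPf k x hx)
    rcases h1.lt_or_eq with h2 | h2
    · exact h2
    · rw [← h2, zero_mul] at hdn
      exact absurd hdn (lt_irrefl _)
  obtain ⟨i, hi, hmin⟩ := Finset.exists_min_image (Finset.range (n + 1)) (fun i => dp f a i x / r ^ i)
    ⟨0, Finset.mem_range.2 (by omega)⟩
  have hin : i ≤ n := Nat.lt_succ_iff.1 (Finset.mem_range.1 hi)
  have hi0 := hpos i hin
  refine ⟨i, hin, fun j hj => ?_, ?_⟩
  · have h1 : dp f a i x / r ^ i ≤ dp f a (i + j) x / r ^ (i + j) := hmin (i + j) (Finset.mem_range.2 (by omega))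
    rw [dp_add, pow_add, div_le_div_iff₀ (by positivity) (by positivity)] at h1
    have h2 : dp f a i x * r ^ i * r ^ j ≤ dp f a i x * r ^ i * dp f a j (f^[i] x) := by nlinarith [h1]
    exact le_of_mul_le_mul_left h2 (by positivity)
  · have h1 : dp f a i x / r ^ i ≤ 1 := by
      have h2 := hmin 0 (Finset.mem_range.2 (by omega))
      rw [dp_zero, pow_zero, div_one] at h2
      exact h2
    have h2 : dp f a (n - i) (f^[i] x) ≤ B ^ (n - i) := by
      have h3 : ∏ k ∈ Finset.range (n - i), a (f^[k] (f^[i] x)) ≤ ∏ _k ∈ Finset.range (n - i), B :=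
        Finset.prod_le_prod (fun k _ => ha _ (it_mem' hPf k _ (it_mem' hPf i x hx)))
          fun k _ => hB _ (it_mem' hPf k _ (it_mem' hPf i x hx))
      rw [Finset.prod_const, Finset.card_range] at h3
      exact h3
    have h3 : dp f a n x = dp f a i x * dp f a (n - i) (f^[i] x) := by
      rw [← dp_add, Nat.add_sub_of_le hin]
    have h4 : dp f a i x ≤ r ^ i := by
      rw [div_le_one (by positivity)] at h1
      exact h1
    have h5 : r ^ i ≤ r ^ n := pow_le_pow_right₀ hr.le hin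
    have h6 : q ^ n ≤ r ^ n * B ^ (n - i) := by
      rw [h3] at hn
      refine hn.trans ?_
      exact mul_le_mul (h4.trans h5) h2 (Finset.prod_nonneg fun k _ => ha _ (it_mem' hPf k _ (it_mem' hPf i x hx))) (by positivity)
    rw [div_pow, div_le_iff₀ (by positivity)]
    linarith [mul_comm (r ^ n) (B ^ (n - i))]

theorem pli [TopologicalSpace X] [T2Space X] {P : Set X} {f : X → X} {a : X → ℝ} (hP : IsCompact P) (hPn : P.Nonempty)
    (hPf : ∀ x ∈ P, f x ∈ P)
    (hfc : ContinuousOn f P) (hac : ContinuousOn a P) (ha : ∀ x ∈ P, 0 ≤ a x)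
    (h : ∀ x ∈ P, ∀ q : ℝ, 1 < q → ∃ n : ℕ, dp f a n x < q ^ n) {q : ℝ} (hq : 1 < q) :
    ∃ n : ℕ, 1 ≤ n ∧ ∀ x ∈ P, dp f a n x < q ^ n := by
  by_contra hcon
  push Not at hcon
  obtain ⟨B0, hB0⟩ := (hP.image_of_continuousOn hac).bddAbove
  obtain ⟨B, hB⟩ : ∃ B, B = max B0 q := ⟨_, rfl⟩
  have hBa : ∀ x ∈ P, a x ≤ B := fun x hx => (hB0 (mem_image_of_mem a hx)).trans (hB ▸ le_max_left _ _)
  have hqB : q ≤ B := hB ▸ le_max_right _ _
  obtain ⟨r, hr, hrq⟩ := exists_between hq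
  have hr0 : 0 < r := by linarith
  have hdc : ∀ n : ℕ, ContinuousOn (dp f a n) P := by
    intro n
    refine continuousOn_finsetProd _ fun i _ => ?_
    have h1 : ∀ i : ℕ, ContinuousOn f^[i] P := by
      intro i
      induction i with
      | zero => exact continuousOn_id
      | succ i ih =>
        rw [Function.iterate_succ']
        exact hfc.comp ih fun x hx => it_mem' hPf i x hx
    exact hac.comp (h1 i) fun x hx => it_mem' hPf i x hx
  obtain ⟨F, hF⟩ : ∃ F : ℕ → Set X, F = fun J => {y ∈ P | ∀ j ≤ J, r ^ j ≤ dp f a j y} := ⟨_, rfl⟩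
  have hFn : ∀ J : ℕ, (F J).Nonempty := by
    intro J
    have h1 : 1 < q / r := by rwa [one_lt_div hr0]
    obtain ⟨n, hn⟩ := pow_unbounded_of_one_lt (B ^ J) h1
    obtain ⟨m, hm⟩ : ∃ m, m = n + 1 := ⟨_, rfl⟩
    obtain ⟨x, hx, hxn⟩ := hcon m (by omega)
    obtain ⟨i, hi, h2, h3⟩ := pli_min hPf ha hBa hr hrq hqB hx hxn
    have h4 : J ≤ m - i := by
      by_contra hlt
      have h5 : B ^ (m - i) ≤ B ^ J := pow_le_pow_right₀ (by linarith) (by omega)
      have h6 : (q / r) ^ n ≤ (q / r) ^ m := pow_le_pow_right₀ h1.le (by omega)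
      linarith
    rw [hF]
    exact ⟨f^[i] x, it_mem' hPf i x hx, fun j hj => h2 j (hj.trans h4)⟩
  have hFc : ∀ J : ℕ, IsClosed (F J) := by
    intro J
    have h1 : F J = ⋂ j ∈ {j : ℕ | j ≤ J}, (P ∩ dp f a j ⁻¹' (Ici (r ^ j))) := by
      rw [hF]
      ext y
      simp only [mem_iInter, mem_setOf_eq, mem_inter_iff, mem_preimage, mem_Ici]
      constructor
      · rintro ⟨h2, h3⟩ j hj
        exact ⟨h2, h3 j hj⟩
      · intro h2
        exact ⟨(h2 0 (Nat.zero_le _)).1, fun j hj => (h2 j hj).2⟩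
    rw [h1]
    exact isClosed_biInter fun j _ => (hdc j).preimage_isClosed_of_isClosed hP.isClosed isClosed_Ici
  have hFP : ∀ J : ℕ, F J ⊆ P := by
    intro J y hy
    rw [hF] at hy
    exact hy.1
  obtain ⟨y, hy⟩ : (⋂ J : ℕ, F J).Nonempty := by
    refine IsCompact.nonempty_iInter_of_sequence_nonempty_isCompact_isClosed F ?_ hFn (hP.of_isClosed_subset (hFc 0) (hFP 0)) hFc
    intro J y hy
    rw [hF] at hy ⊢
    exact ⟨hy.1, fun j hj => hy.2 j (hj.trans (Nat.le_succ J))⟩
  have hyP : y ∈ P := hFP 0 (mem_iInter.1 hy 0)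
  obtain ⟨n, hn⟩ := h y hyP r hr
  have h1 := mem_iInter.1 hy n
  rw [hF] at h1
  exact absurd hn (not_lt.2 (h1.2 n le_rfl))

end Pool.Agent.H56.ZE
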